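import Pool.Agent.W792.WA.Stm2

/-!
# Project WA: part NETX (helper372)
-/

set_option autoImplicit false
set_option linter.all false

namespace Pool.Agent.W372.WA

open MeasureTheory Pool.Agent.W792.LL Pool.Agent.W792.WA

noncomputable section

theorem ne_I (x : ℝ) : (x : ℂ) - Complex.I ≠ 0 := by
  intro h
  have := congrArg Complex.im h
  simp at this

theorem one_le_norm (x : ℝ) : 1 ≤ ‖(x : ℂ) - Complex.I‖ := by
  have := Complex.abs_im_le_norm ((x : ℂ) - Complex.I)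
  simpa using this

theorem cay_lip (x y : ℝ) : ‖cay x - cay y‖ ≤ 2 * |x - y| := by
  have hx := ne_I x
  have hy := ne_I y
  have e : cay x - cay y = (2 * Complex.I * ((y : ℂ) - x)) /
      (((x : ℂ) - Complex.I) * ((y : ℂ) - Complex.I)) := by
    unfold cay
    field_simp
    ring
  rw [e, norm_div, norm_mul, norm_mul, norm_mul, Complex.norm_I, Complex.norm_ofNat]
  have h1 := one_le_norm x
  have h2 := one_le_norm y
  have h3 : ‖(y : ℂ) - x‖ = |x - y| := by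
    rw [← Complex.ofReal_sub, Complex.norm_real, Real.norm_eq_abs, abs_sub_comm]
  rw [h3]
  have h4 : 1 ≤ ‖(x : ℂ) - Complex.I‖ * ‖(y : ℂ) - Complex.I‖ := by nlinarith
  rw [div_le_iff₀ (by positivity)]
  have h5 := abs_nonneg (x - y)
  nlinarith

/-- the approximating functions -/
def YY (δ : ℝ) (N : ℕ) (g : Fin (N + 1) → Fin (2 * N + 1)) : MX :=
  ⟨fun u => -δ + δ / N * ((g ⟨min ⌊(N : ℝ) * u⌋₊ N, by omega⟩ : ℕ) : ℝ), by
    have h : Measurable fun n : ℕ =>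
        (-δ + δ / N * ((g ⟨min n N, by omega⟩ : ℕ) : ℝ) : ℝ) := measurable_from_top
    exact h.comp (Nat.measurable_floor.comp (measurable_const.mul measurable_id))⟩

theorem key {δ : ℝ} (hδ : 0 < δ) {N : ℕ} (hN : 1 ≤ N) {X : MX} (hX : X ∈ Mo δ) :
    ∃ g, cd X (YY δ N g) ≤ 40 * δ ^ 2 / N := by
  obtain ⟨hm, hb⟩ := hX
  have hNR : (1 : ℝ) ≤ (N : ℝ) := by exact_mod_cast hN
  have hN0 : (0 : ℝ) < (N : ℝ) := by linarith
  have hb1 : ∀ u, -δ ≤ X.1 u := fun u => (abs_le.1 (hb u)).1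
  have hb2 : ∀ u, X.1 u ≤ δ := fun u => (abs_le.1 (hb u)).2
  have ht0 : ∀ u, 0 ≤ (X.1 u + δ) * N / δ := fun u => by
    have := hb1 u
    have : 0 ≤ X.1 u + δ := by linarith
    positivity
  have ht1 : ∀ u, (X.1 u + δ) * N / δ ≤ 2 * N := fun u => by
    rw [div_le_iff₀ hδ]
    have := hb2 u
    nlinarith
  let g : Fin (N + 1) → Fin (2 * N + 1) := fun j =>
    ⟨⌊(X.1 ((j : ℕ) / (N : ℝ)) + δ) * N / δ⌋₊, by
      have h := Nat.floor_le_floor (ht1 ((j : ℕ) / (N : ℝ)))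
      have e : ⌊(2 * N : ℝ)⌋₊ = 2 * N := by
        have : ((2 * N : ℕ) : ℝ) = 2 * N := by push_cast; ring
        rw [← this, Nat.floor_natCast]
      omega⟩
  refine ⟨g, ?_⟩
  -- pointwise estimate
  have hpt : ∀ u ∈ Set.Ioc (0 : ℝ) 1, ‖cay (X.1 u) - cay ((YY δ N g).1 u)‖ ^ 2 ≤
      16 * δ * (X.1 u - X.1 (u - 1 / N)) + 8 * δ ^ 2 / N := by
    intro u hu
    have hu0 : 0 ≤ (N : ℝ) * u := mul_nonneg hN0.le hu.1.le
    obtain ⟨j, hj⟩ : ∃ j : ℕ, j = ⌊(N : ℝ) * u⌋₊ := ⟨_, rfl⟩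
    have hj1 : (j : ℝ) ≤ N * u := by rw [hj]; exact Nat.floor_le hu0
    have hj2 : (N : ℝ) * u < j + 1 := by rw [hj]; exact Nat.lt_floor_add_one _
    have hjN : j ≤ N := by
      have : (j : ℝ) ≤ N := hj1.trans (by nlinarith [hu.2])
      exact_mod_cast this
    have hju : (j : ℝ) / N ≤ u := by
      rw [div_le_iff₀ hN0]
      linarith
    have huj : u - 1 / N ≤ (j : ℝ) / N := by
      rw [sub_le_iff_le_add, ← add_div, le_div_iff₀ hN0]
      linarith
    have hY : (YY δ N g).1 u = -δ + δ / N * (⌊(X.1 ((j : ℕ) / (N : ℝ)) + δ) * N / δ⌋₊ : ℝ) := by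
      have e : (⟨min ⌊(N : ℝ) * u⌋₊ N, by omega⟩ : Fin (N + 1)) = ⟨j, by omega⟩ := by
        apply Fin.ext
        show min ⌊(N : ℝ) * u⌋₊ N = j
        rw [← hj]
        exact min_eq_left hjN
      show -δ + δ / N * ((g ⟨min ⌊(N : ℝ) * u⌋₊ N, by omega⟩ : ℕ) : ℝ) = _
      rw [e]
    obtain ⟨t, ht⟩ : ∃ t : ℝ, t = (X.1 ((j : ℕ) / (N : ℝ)) + δ) * N / δ := ⟨_, rfl⟩
    rw [← ht] at hY
    have htt0 : 0 ≤ t := by rw [ht]; exact ht0 _
    have hf1 : (⌊t⌋₊ : ℝ) ≤ t := Nat.floor_le htt0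
    have hf2 : t < ⌊t⌋₊ + 1 := Nat.lt_floor_add_one t
    have hXt : X.1 ((j : ℕ) / (N : ℝ)) = -δ + δ / N * t := by
      rw [ht]
      field_simp
      ring
    have hdN : 0 < δ / N := div_pos hδ hN0
    have hA : X.1 ((j : ℕ) / (N : ℝ)) ≤ X.1 u := hm hju
    have hB : X.1 (u - 1 / N) ≤ X.1 ((j : ℕ) / (N : ℝ)) := hm huj
    have hC : |(YY δ N g).1 u - X.1 ((j : ℕ) / (N : ℝ))| ≤ δ / N := by
      rw [hY, hXt, abs_le]
      constructor <;> nlinarith
    obtain ⟨p, hp⟩ : ∃ p : ℝ, p = X.1 u - X.1 ((j : ℕ) / (N : ℝ)) := ⟨_, rfl⟩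
    have hp0 : 0 ≤ p := by rw [hp]; linarith
    have hp1 : p ≤ X.1 u - X.1 (u - 1 / N) := by rw [hp]; linarith
    have hp2 : p ≤ 2 * δ := by
      rw [hp]
      have := hb1 ((j : ℕ) / (N : ℝ))
      have := hb2 u
      linarith
    have hD : |X.1 u - (YY δ N g).1 u| ≤ p + δ / N := by
      have h1 : |X.1 u - X.1 ((j : ℕ) / (N : ℝ))| = p := by
        rw [hp, abs_of_nonneg]
        linarith
      calc |X.1 u - (YY δ N g).1 u| ≤ |X.1 u - X.1 ((j : ℕ) / (N : ℝ))| +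
            |X.1 ((j : ℕ) / (N : ℝ)) - (YY δ N g).1 u| := abs_sub_le _ _ _
        _ ≤ p + δ / N := by
            rw [h1, abs_sub_comm (X.1 ((j : ℕ) / (N : ℝ)))]
            linarith
    have hE : ‖cay (X.1 u) - cay ((YY δ N g).1 u)‖ ≤ 2 * (p + δ / N) :=
      (cay_lip _ _).trans (by linarith)
    have hF : ‖cay (X.1 u) - cay ((YY δ N g).1 u)‖ ^ 2 ≤ (2 * (p + δ / N)) ^ 2 :=
      pow_le_pow_left₀ (norm_nonneg _) hE 2
    refine hF.trans ?_
    have hG : (δ / N) ^ 2 ≤ δ ^ 2 / N := by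
      rw [div_pow]
      apply div_le_div_of_nonneg_left (by positivity) hN0
      nlinarith
    have hH : p ^ 2 ≤ 2 * δ * (X.1 u - X.1 (u - 1 / N)) := by
      have h1 : p * p ≤ (2 * δ) * (X.1 u - X.1 (u - 1 / N)) :=
        mul_le_mul hp2 hp1 hp0 (by linarith)
      nlinarith
    have e8 : 8 * δ ^ 2 / N = 8 * (δ ^ 2 / N) := by ring
    rw [e8]
    nlinarith [sq_nonneg (p - δ / N)]
  -- integration
  have hsh : Monotone fun u : ℝ => X.1 (u - 1 / N) := fun a b hab => hm (by linarith)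
  have hI1 : IntervalIntegrable X.1 volume 0 1 := hm.intervalIntegrable
  have hI2 : IntervalIntegrable (fun u : ℝ => X.1 (u - 1 / N)) volume 0 1 := hsh.intervalIntegrable
  have hI : IntervalIntegrable (fun u : ℝ => 16 * δ * (X.1 u - X.1 (u - 1 / N)) +
      8 * δ ^ 2 / N) volume 0 1 := ((hI1.sub hI2).const_mul _).add intervalIntegrable_const
  have hval : ∫ u in (0 : ℝ)..1, (16 * δ * (X.1 u - X.1 (u - 1 / N)) + 8 * δ ^ 2 / N) ≤
      40 * δ ^ 2 / N := by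
    rw [intervalIntegral.integral_add ((hI1.sub hI2).const_mul _) intervalIntegrable_const,
      intervalIntegral.integral_const_mul, intervalIntegral.integral_sub hI1 hI2,
      intervalIntegral.integral_const, intervalIntegral.integral_comp_sub_right (fun u => X.1 u)]
    have e1 := intervalIntegral.integral_interval_sub_interval_comm
      (f := X.1) (μ := volume) (a := 0) (b := 1) (c := 0 - 1 / N) (d := 1 - 1 / N)
      hm.intervalIntegrable hm.intervalIntegrable hm.intervalIntegrable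
    rw [e1]
    have b1 : |∫ x in (0 : ℝ)..(0 - 1 / N), X.1 x| ≤ δ * |(0 - 1 / N : ℝ) - 0| := by
      rw [← Real.norm_eq_abs]
      exact intervalIntegral.norm_integral_le_of_norm_le_const fun x _ => hb x
    have b2 : |∫ x in (1 : ℝ)..(1 - 1 / N), X.1 x| ≤ δ * |(1 - 1 / N : ℝ) - 1| := by
      rw [← Real.norm_eq_abs]
      exact intervalIntegral.norm_integral_le_of_norm_le_const fun x _ => hb x
    have c1 : |(0 - 1 / N : ℝ) - 0| = 1 / N := by
      rw [show (0 - 1 / N : ℝ) - 0 = -(1 / N) by ring, abs_neg, abs_of_pos (by positivity)]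
    have c2 : |(1 - 1 / N : ℝ) - 1| = 1 / N := by
      rw [show (1 - 1 / N : ℝ) - 1 = -(1 / N) by ring, abs_neg, abs_of_pos (by positivity)]
    rw [c1] at b1
    rw [c2] at b2
    have d1 := (abs_le.1 b1).2
    have d2 := (abs_le.1 b2).1
    have d3 : (∫ x in (0 : ℝ)..(0 - 1 / N), X.1 x) - ∫ x in (1 : ℝ)..(1 - 1 / N), X.1 x ≤
        2 * δ * (1 / N) := by linarith
    have d4 : 16 * δ * ((∫ x in (0 : ℝ)..(0 - 1 / N), X.1 x) -
        ∫ x in (1 : ℝ)..(1 - 1 / N), X.1 x) ≤ 16 * δ * (2 * δ * (1 / N)) :=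
      mul_le_mul_of_nonneg_left d3 (by positivity)
    have d5 : 16 * δ * (2 * δ * (1 / N)) + ((1 : ℝ) - 0) • (8 * δ ^ 2 / N) = 40 * δ ^ 2 / N := by
      rw [smul_eq_mul]
      ring
    linarith
  refine le_trans ?_ hval
  rw [intervalIntegral.integral_of_le zero_le_one]
  unfold cd
  refine integral_mono_of_nonneg (Filter.Eventually.of_forall fun u => by positivity) hI.1 ?_
  exact (ae_restrict_iff' measurableSet_Ioc).2 (Filter.Eventually.of_forall hpt)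

theorem main : S_NETX := by
  intro δ hδ τ hτ
  obtain ⟨N, hN⟩ := exists_nat_gt (40 * δ ^ 2 / τ ^ 2)
  have hN0 : (0 : ℝ) < N := lt_of_le_of_lt (by positivity) hN
  have hN1 : 1 ≤ N := by
    have : 0 < N := by exact_mod_cast hN0
    omega
  refine ⟨Set.range (YY δ N), Set.finite_range _, ?_⟩
  intro X hX
  obtain ⟨g, hg⟩ := key hδ hN1 hX
  refine ⟨YY δ N g, ⟨g, rfl⟩, hg.trans ?_⟩
  rw [div_le_iff₀ hN0]
  rw [div_lt_iff₀ (by positivity)] at hN
  linarith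

end

end Pool.Agent.W372.WA
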